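import Mathlib
import Pool.Agent.H447R2.ML.Spec

set_option autoImplicit false

/-!
# The solutions of `p ^ 2 + 1 = 2 r ^ 2`
-/

namespace Pool.Agent.N567.PL

open Pool.Agent.H447R2.ML (U V U_zero U_one U_two U_add_two V_add_two)

/-- the numerators `1, 1, 3, 7, 17, 41, ...` -/
def H : ℕ → ℕ
  | 0 => 1
  | 1 => 1
  | (n + 2) => 2 * H (n + 1) + H n

/-- the Pell numbers `0, 1, 2, 5, 12, 29, ...` -/
def D : ℕ → ℕ
  | 0 => 0
  | 1 => 1
  | (n + 2) => 2 * D (n + 1) + D n

lemma H_add_two (n : ℕ) : H (n + 2) = 2 * H (n + 1) + H n := rfl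

lemma D_add_two (n : ℕ) : D (n + 2) = 2 * D (n + 1) + D n := rfl

lemma D_eq : ∀ n : ℕ, U 2 n = D n
  | 0 => rfl
  | 1 => rfl
  | (n + 2) => by rw [U_add_two, D_add_two, D_eq (n + 1), D_eq n]

lemma V_eq_H : ∀ n : ℕ, V 2 n = 2 * H n
  | 0 => rfl
  | 1 => rfl
  | (n + 2) => by rw [V_add_two, H_add_two, V_eq_H (n + 1), V_eq_H n]; ring

lemma step : ∀ n : ℕ, H (n + 1) = H n + 2 * D n ∧ D (n + 1) = H n + D n
  | 0 => ⟨rfl, rfl⟩
  | (n + 1) => by
      obtain ⟨h1, h2⟩ := step n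
      constructor
      · rw [H_add_two]; omega
      · rw [D_add_two]; omega

lemma norm_eq : ∀ n : ℕ, (H n : ℤ) ^ 2 - 2 * (D n : ℤ) ^ 2 = (-1) ^ n
  | 0 => by norm_num [H, D]
  | (n + 1) => by
      obtain ⟨h1, h2⟩ := step n
      have h3 := norm_eq n
      rw [h1, h2, pow_succ (-1 : ℤ) n, ← h3]
      push_cast
      ring

lemma H_pos : ∀ n : ℕ, 0 < H n
  | 0 => one_pos
  | (n + 1) => by rw [(step n).1]; have := H_pos n; omega

lemma D_pos (n : ℕ) : 0 < D (n + 1) := by
  rw [(step n).2]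
  have := H_pos n
  omega

lemma H_odd : ∀ n : ℕ, H n % 2 = 1
  | 0 => rfl
  | (n + 1) => by rw [(step n).1]; have := H_odd n; omega

lemma two_dvd (n : ℕ) : H (n + 2) = 3 * H n + 4 * D n ∧ D (n + 2) = 2 * H n + 3 * D n := by
  obtain ⟨h1, h2⟩ := step n
  obtain ⟨h3, h4⟩ := step (n + 1)
  have e : n + 1 + 1 = n + 2 := rfl
  rw [e] at h3 h4
  constructor
  · omega
  · omega

/-- the solutions of the negative Pell equation -/
theorem pell_solutions : ∀ r p : ℕ, p ^ 2 + 1 = 2 * r ^ 2 → ∃ n : ℕ, Odd n ∧ p = H n ∧ r = D n := by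
  intro r
  induction r using Nat.strong_induction_on with
  | _ r ih =>
    intro p h
    rcases Nat.lt_or_ge r 2 with hr | hr
    · have hr1 : r = 1 := by
        rcases Nat.eq_zero_or_pos r with h0 | h0
        · rw [h0] at h; simp at h
        · omega
      subst hr1
      have hp1 : p = 1 := by nlinarith
      exact ⟨1, odd_one, by rw [hp1]; rfl, rfl⟩
    · have hpr : r < p := by
        by_contra hc
        have : p ≤ r := not_lt.1 hc
        nlinarith
      have hr3 : r ≠ 2 := by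
        rintro rfl
        have h7 : p ^ 2 = 7 := by omega
        have : p < 3 := by nlinarith
        interval_cases p <;> omega
      have h1 : 4 * r < 3 * p := by
        by_contra hc
        have h2 : 3 * p ≤ 4 * r := not_lt.1 hc
        have h3 : 3 ≤ r := by omega
        nlinarith
      have h2 : 2 * p < 3 * r := by
        by_contra hc
        have h3 : 3 * r ≤ 2 * p := not_lt.1 hc
        nlinarith
      obtain ⟨p', hp'⟩ : ∃ p', 3 * p = 4 * r + p' := ⟨3 * p - 4 * r, by omega⟩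
      obtain ⟨r', hr'⟩ : ∃ r', 3 * r = 2 * p + r' := ⟨3 * r - 2 * p, by omega⟩
      have hlt : r' < r := by omega
      have heq : p' ^ 2 + 1 = 2 * r' ^ 2 := by
        zify at h hp' hr' ⊢
        have e1 : (p' : ℤ) = 3 * p - 4 * r := by linarith
        have e2 : (r' : ℤ) = 3 * r - 2 * p := by linarith
        rw [e1, e2]
        linear_combination h
      obtain ⟨n, hn, h3, h4⟩ := ih r' hlt p' heq
      have h5 := two_dvd n
      refine ⟨n + 2, by rw [Nat.odd_add]; exact iff_of_true hn even_two, ?_, ?_⟩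
      · rw [h5.1, ← h3, ← h4]; omega
      · rw [h5.2, ← h3, ← h4]; omega

lemma pell_conv {n : ℕ} (hn : Odd n) : H n ^ 2 + 1 = 2 * D n ^ 2 := by
  have h := norm_eq n
  rw [hn.neg_one_pow] at h
  zify
  linarith

lemma H_lt (n : ℕ) : H (n + 1) < H (n + 2) := by
  rw [(step (n + 1)).1]
  have := D_pos n
  omega

lemma H_strict {m n : ℕ} (hm : 1 ≤ m) (h : m < n) : H m < H n := by
  obtain ⟨k, rfl⟩ := Nat.exists_eq_add_of_lt h
  induction k with
  | zero =>
    obtain ⟨m', rfl⟩ := Nat.exists_eq_add_of_le' hm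
    exact H_lt m'
  | succ k ih =>
    have h1 := ih (by omega)
    obtain ⟨m', rfl⟩ := Nat.exists_eq_add_of_le' hm
    have h2 := H_lt (m' + 1 + k)
    have e1 : m' + 1 + k + 1 = m' + 1 + k + 1 := rfl
    have e2 : m' + 1 + (k + 1) + 1 = m' + 1 + k + 2 := by ring
    rw [e2]
    omega

/-- closed forms -/
lemma closed_forms (n : ℕ) :
    (H n : ℝ) = ((1 + Real.sqrt 2) ^ n + (1 - Real.sqrt 2) ^ n) / 2 ∧
    (D n : ℝ) = ((1 + Real.sqrt 2) ^ n - (1 - Real.sqrt 2) ^ n) / (2 * Real.sqrt 2) := by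
  have hs : Real.sqrt 2 ^ 2 = 2 := Real.sq_sqrt (by norm_num)
  have h0 : 0 < Real.sqrt 2 := Real.sqrt_pos.2 (by norm_num)
  have h := Pool.Agent.H447R2.ML.closed 2 (s := 2 * Real.sqrt 2) (α := 1 + Real.sqrt 2)
    (ψ := 1 - Real.sqrt 2) (by push_cast; nlinarith) (by push_cast; ring) (by push_cast; ring) n
  rw [D_eq, V_eq_H] at h
  push_cast at h
  constructor
  · linarith [h.2]
  · rw [eq_div_iff (by positivity)]
    exact h.1

/-- the product formula for odd steps -/
lemma H_odd_step {a : ℕ} (ha : Odd a) (m : ℕ) : H (m + 2 * a) = 2 * H (m + a) * H a + H m := by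
  have h1 := (closed_forms (m + 2 * a)).1
  have h2 := (closed_forms (m + a)).1
  have h3 := (closed_forms a).1
  have h4 := (closed_forms m).1
  have hs : Real.sqrt 2 ^ 2 = 2 := Real.sq_sqrt (by norm_num)
  have hm : ((1 + Real.sqrt 2) * (1 - Real.sqrt 2)) ^ a = -1 := by
    have : (1 + Real.sqrt 2) * (1 - Real.sqrt 2) = -1 := by nlinarith
    rw [this, ha.neg_one_pow]
  have h5 : (H (m + 2 * a) : ℝ) = 2 * H (m + a) * H a + H m := by
    rw [h1, h2, h3, h4]
    rw [mul_pow] at hm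
    set x := (1 + Real.sqrt 2)
    set y := (1 - Real.sqrt 2)
    rw [pow_add x m (2 * a), pow_add y m (2 * a), pow_add x m a, pow_add y m a, pow_mul' x 2 a,
      pow_mul' y 2 a]
    linear_combination (-(x ^ m) / 2 - y ^ m / 2) * hm
  exact_mod_cast h5

lemma H_dvd {a : ℕ} (ha : Odd a) : ∀ j : ℕ, H a ∣ H (a * (2 * j + 1))
  | 0 => by simp
  | (j + 1) => by
      have e : a * (2 * (j + 1) + 1) = a * (2 * j + 1) + 2 * a := by ring
      rw [e, H_odd_step ha]
      exact dvd_add (Dvd.intro_left _ rfl) (H_dvd ha j)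

/-- prime values have prime index -/
theorem prime_index {n : ℕ} (hn : Odd n) (h : (H n).Prime) : n.Prime := by
  have h1 : n ≠ 1 := by
    rintro rfl
    exact absurd h (by norm_num [H])
  by_contra hc
  have h2 : 2 ≤ n := by
    have := hn.pos
    omega
  obtain ⟨a, ha1, ha2, ha3⟩ := Nat.exists_dvd_of_not_prime2 h2 hc
  obtain ⟨b, rfl⟩ := ha1
  have hab := Nat.odd_mul.1 hn
  obtain ⟨j, hj⟩ := hab.2
  have h3 : H a ∣ H (a * b) := by
    rw [hj]
    exact H_dvd hab.1 j
  have h4 : 1 < H a := by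
    have := H_strict (m := 1) (n := a) le_rfl (by omega)
    simpa [H] using this
  have h5 : H a < H (a * b) := H_strict (by omega) ha3
  rcases (Nat.dvd_prime h).1 h3 with h6 | h6
  · omega
  · omega

/-- prime factors of the numerators -/
lemma lt_of_dvd_H {p q : ℕ} (hp : p.Prime) (h5 : 5 ≤ p) (hq : q.Prime) (h : q ∣ H p) : p < q := by
  refine Pool.Agent.H447R2.ML.lt_of_dvd_V 2 hp h5 ?_ hq ?_ ?_
  · intro h2
    have := Nat.le_of_dvd (by norm_num) h2
    omega
  · intro h2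
    have h3 : q = 2 := (Nat.prime_dvd_prime_iff_eq hq Nat.prime_two).1 h2
    rw [h3] at h
    have := H_odd p
    omega
  · rw [V_eq_H]
    exact h.mul_left 2

lemma lt_of_dvd_D {p q : ℕ} (hp : p.Prime) (h5 : 5 ≤ p) (hq : q.Prime) (h : q ∣ D p) : p < q := by
  refine Pool.Agent.H447R2.ML.lt_of_dvd_U 2 hp h5 ?_ hq (by rw [D_eq]; exact h)
  intro h2
  have h3 : p ∣ 2 ^ 3 := by norm_num at h2 ⊢; exact h2
  have h4 := hp.dvd_of_dvd_pow h3
  have := Nat.le_of_dvd (by norm_num) h4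
  omega

end Pool.Agent.N567.PL
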