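import Mathlib
import Pool.Agent.W66.GE

set_option autoImplicit false

/-!
# Two proportional phases with the same index

For a fixed ratio `β ≥ 1` with `|a - b β| ≫ 1 / (a + b)` (for instance `β` a quadratic irrational)
the two events that the rough part of the integer below `e ^ y` is prime and that the rough part of
the integer below `β e ^ y` is prime are bounded jointly by the product of the two sieve bounds.
-/

namespace Pool.Agent.N567.PL

open Finset MeasureTheory Filter Topology
open Pool.Agent.W66 (no_mid_prime NN_bounds exp_small large_smooth_count)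
open Pool.Agent.W66V (good bad measurableSet_good measurableSet_bad joint_sift_log corr_lin
  ratio_primorial main_bound err_bound size_exp large_part Z32 Z32_nonneg HD)
open Pool.Agent.W66X (ysh measurable_ysh)
open Pool.Agent.H305R2 (roughPart NN ff measurable_NN measurable_ff ff_nonneg ff_le_one)

open Classical in
/-- the sieve bound in one window -/
theorem pair_window {α β A : ℝ} (hα : 1 < α) (hβ1 : 1 ≤ β) (hA : 1 ≤ A)
    (hdio : ∀ a b : ℕ, 1 ≤ a → 1 ≤ b → 1 ≤ |(a : ℝ) - b * β| * (A * (a + b)))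
    (b0 : ℝ) : ∃ K : ℝ, 0 < K ∧ ∀ᶠ p : ℕ in atTop, ∀ Y : ℝ, Real.log α * p + b0 ≤ Y →
      ∫ y in Set.Ioc Y (Y + 1), (if good α p y ∧ good α p (Real.log (β * Real.exp y))
        then (1 : ℝ) else 0) ≤ K * (Real.log p / p) ^ 2 := by
  have hα0 : 0 < α := by linarith
  have hβ0 : 0 < β := by linarith
  set L := Real.log α with hL
  have hLpos : 0 < L := Real.log_pos hα
  have hA0 : 0 < A := by linarith
  obtain ⟨C1, hC1, hrat⟩ := ratio_primorial
  obtain ⟨P1, hP1⟩ := eventually_atTop.1 hrat
  have hsm := exp_small (c := 17 * L / 64) (by positivity)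
  have hlarge : ∀ᶠ p : ℕ in atTop, (|b0| + 4) * 64 / (47 * L) < p :=
    tendsto_natCast_atTop_atTop.eventually_gt_atTop _
  set a := (Z32 + 2) ^ 2 * Real.exp (-b0 / 2) with ha
  have hZ0 := Z32_nonneg
  have ha0 : 0 < a := by positivity
  have hsA : 0 < Real.sqrt A := Real.sqrt_pos.2 hA0
  refine ⟨4 * (256 * C1 / L) ^ 2 + Real.sqrt A * a, by positivity, ?_⟩
  filter_upwards [hsm, hlarge, eventually_ge_atTop P1, eventually_ge_atTop 2]
    with p hsmp hpl hpP1 hp2 Y hY
  have hp2' : (2 : ℝ) ≤ p := by exact_mod_cast hp2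
  have hp0 : (0 : ℝ) < p := by linarith
  have hb0abs := neg_abs_le b0
  have hb0abs' := le_abs_self b0
  have hbn := abs_nonneg b0
  rw [div_lt_iff₀ (by positivity)] at hpl
  obtain ⟨M, hM0, hMl, hMr⟩ := hP1 p (by omega)
  have hY0 : 0 ≤ Y := by
    have : (|b0| + 4) * 64 < p * (47 * L) := hpl
    have h1 : 0 < L * p := by positivity
    linarith
  have hX1 : 1 ≤ Real.exp Y := Real.one_le_exp hY0
  -- the sieve level
  set R := ⌊Real.exp (L * p / 64)⌋₊ with hR
  have hexp1 : 1 ≤ Real.exp (L * p / 64) := Real.one_le_exp (by positivity)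
  have hR1 : 1 ≤ R := by rw [hR, Nat.one_le_floor_iff]; exact hexp1
  have hRle : (R : ℝ) ≤ Real.exp (L * p / 64) := Nat.floor_le (Real.exp_pos _).le
  have hRgt : Real.exp (L * p / 64) ≤ R + 1 := (Nat.lt_floor_add_one _).le
  set ε := (((R ^ 2 : ℕ) : ℝ) * (Z32 + 2)) ^ 2 *
      Real.sqrt (A * ((R ^ 2 : ℕ) : ℝ) ^ 3 / Real.exp Y) with hε
  have hε0 : 0 ≤ ε := by positivity
  set f : ℝ → ℝ := fun y => if good α p y ∧ good α p (Real.log (β * Real.exp y)) then (1 : ℝ) else 0 with hf
  have hmeas : Measurable f := by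
    refine Measurable.ite ?_ measurable_const measurable_const
    refine (measurableSet_good α p).inter ?_
    have h1 : Measurable (fun y : ℝ => Real.log (β * Real.exp y)) :=
      Real.measurable_log.comp (Real.measurable_exp.const_mul _)
    exact h1 (measurableSet_good α p)
  obtain ⟨J, hJ0, hJ1, hJ2⟩ := joint_sift_log (R := R) (M := M) hR1 hM0 (ε := ε) (Y := Y) hε0
    (ψ := fun x => β * x + 0) (by fun_prop)
    (fun D E hD hD2 hE hE2 => corr_lin (Q := R ^ 2) (A := A) (β := β) (κ := 0) (X := Real.exp Y)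
      (Nat.one_le_pow _ _ hR1) hA hβ1 hX1 hdio hD hD2 hE hE2)
    (f := f)
    (by
      refine Measure.integrableOn_of_bounded (M := 1) (by simp) hmeas.aestronglyMeasurable ?_
      refine Eventually.of_forall fun y => ?_
      simp only [hf]
      split_ifs <;> simp)
    (fun y _ => by simp only [hf]; split_ifs <;> norm_num)
    (by
      intro y hy hfy
      have hgd : good α p y ∧ good α p (Real.log (β * Real.exp y)) := by
        by_contra hc
        simp only [hf] at hfy
        rw [if_neg hc] at hfy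
        exact lt_irrefl _ hfy
      obtain ⟨⟨g1, g2⟩, g3, g4⟩ := hgd
      have hyY : Real.exp Y < Real.exp y := Real.exp_lt_exp.2 hy.1
      have hψ0 : 0 < β * Real.exp y := mul_pos hβ0 (Real.exp_pos y)
      obtain ⟨n1, n2⟩ := NN_bounds y
      obtain ⟨n3, n4⟩ := NN_bounds (Real.log (β * Real.exp y))
      rw [Real.exp_log hψ0] at n3 n4
      have hs := size_exp (u := L * p / 64 + L * p / 4) (v := Y) (by positivity) (by linarith)
      have hy1 : Real.exp y ≤ β * Real.exp y := by
        have := mul_le_mul_of_nonneg_right hβ1 (Real.exp_pos y).le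
        linarith
      refine ⟨NN y, NN (Real.log (β * Real.exp y)), n1, n2, by rw [add_zero]; exact n3,
        by rw [add_zero]; exact n4, fun l hl hlR hlM => ?_⟩
      have hql := hMl l hl hlM
      have hlz : (l : ℝ) ≤ Real.exp (L * p / 64) := by
        have : (l : ℝ) ≤ R := by exact_mod_cast hlR
        linarith
      constructor
      · refine no_mid_prime g1 g2 ?_ hl (by omega) hlz
        rw [← Real.exp_add]
        linarith [Real.exp_pos Y]
      · refine no_mid_prime g3 g4 ?_ hl hql hlz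
        rw [← Real.exp_add]
        linarith [Real.exp_pos Y])
  refine hJ2.trans ?_
  have hm := main_bound hJ0 hC1 hLpos hp2 (show p ≤ 2 * p by omega) (by omega) hRgt hMr hJ1
  have he := err_bound (R := R) (Z := Z32) (δ := L) (L := L) (a := a) (c := b0) (Y := Y) (A := 1)
    (p := p) (h := 0) le_rfl (by rw [Real.log_one, sub_self]) hRle (Nat.zero_le p) hY hZ0 ha
  have he2 : (R : ℝ) ^ 8 * ε ≤ Real.sqrt A * a * (Real.log p / p) ^ 2 := by
    have e1 : (R : ℝ) ^ 8 * ε = Real.sqrt A * ((R : ℝ) ^ 8 * ((((R ^ 2 : ℕ) : ℝ) * (Z32 + 2)) ^ 2 *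
        Real.sqrt (1 ^ 0 * ((R ^ 2 : ℕ) : ℝ) ^ 3 / Real.exp Y))) := by
      rw [hε, pow_zero, one_mul, mul_div_assoc, Real.sqrt_mul hA0.le]
      ring
    rw [e1, mul_assoc]
    refine mul_le_mul_of_nonneg_left ?_ hsA.le
    exact he.trans (mul_le_mul_of_nonneg_left hsmp ha0.le)
  calc 4 / J ^ 2 + (R : ℝ) ^ 8 * ε ≤ 4 * (256 * C1 / L) ^ 2 * (Real.log p / p) ^ 2 +
        Real.sqrt A * a * (Real.log p / p) ^ 2 := add_le_add hm he2
    _ = _ := by ring

end Pool.Agent.N567.PL
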