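import Mathlib
import Pool.Agent.N567.PL.Joint
import Pool.Agent.TH888.R.Sh

set_option autoImplicit false

/-!
# Two proportional values: almost surely only finitely many simultaneous primes
-/

namespace Pool.Agent.N567.PL

open Finset MeasureTheory Filter Topology
open Pool.Agent.W66V (good bad measurableSet_good measurableSet_bad large_part)
open Pool.Agent.W66 (exp_small)
open Pool.Agent.W66X (ysh measurable_ysh)
open Pool.Agent.H305R2 (roughPart NN ff measurable_NN measurable_ff ff_nonneg ff_le_one)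

lemma ysh_zero {α : ℝ} (hα : 0 < α) (p : ℕ) (t : ℝ) :
    ysh α (fun _ => 0) p t = t + Real.log α * p := by
  unfold ysh
  rw [add_zero, Real.log_mul (Real.exp_pos t).ne' (pow_pos hα p).ne', Real.log_exp, Real.log_pow]
  ring

lemma trans_window (F : ℝ → ℝ) (a c : ℝ) :
    ∫ t in Set.Ioc a (a + 1), F (t + c) = ∫ t in Set.Ioc (a + c) (a + c + 1), F t := by
  rw [← intervalIntegral.integral_of_le (by linarith), ← intervalIntegral.integral_of_le (by linarith),
    intervalIntegral.integral_comp_add_right]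
  congr 1
  ring

open Classical in
lemma bad_window {α : ℝ} (hα : 1 < α) (b0 : ℝ) : ∀ᶠ m : ℕ in atTop,
    ∫ t in Set.Ioc b0 (b0 + 1), (if bad α m (t + Real.log α * m) then (1 : ℝ) else 0) ≤
      32 * Real.exp (-(3 * Real.log α / 32 * m)) := by
  have h := large_part (g := fun _ => 0) (C := 0) hα zero_le_one hα (by intro p; simp) b0
  filter_upwards [h] with m hm
  simpa only [ysh_zero (by linarith : 0 < α)] using hm

open Classical in
/-- the joint bound -/
theorem pair_bound {α β A : ℝ} (hα : 1 < α) (hβ1 : 1 ≤ β) (hA : 1 ≤ A)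
    (hdio : ∀ a b : ℕ, 1 ≤ a → 1 ≤ b → 1 ≤ |(a : ℝ) - b * β| * (A * (a + b))) (b0 : ℝ) :
    ∃ K : ℝ, 0 < K ∧ ∀ᶠ p : ℕ in atTop, ∫ t in Set.Ioc b0 (b0 + 1),
      ff p (t + Real.log α * p) * ff p (t + Real.log α * p + Real.log β) ≤
        K * (Real.log p / p) ^ 2 := by
  have hα0 : 0 < α := by linarith
  have hβ0 : 0 < β := by linarith
  obtain ⟨K1, hK1, hW⟩ := pair_window hα hβ1 hA hdio b0
  set L := Real.log α with hL
  have hLpos : 0 < L := Real.log_pos hα
  have hb1 := bad_window hα b0
  have hb2 := bad_window hα (b0 + Real.log β)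
  have hsm := exp_small (c := 3 * L / 32) (by positivity)
  refine ⟨K1 + 64, by positivity, ?_⟩
  filter_upwards [hW, hb1, hb2, hsm] with p hWp hbp hbq hsmp
  set G : ℝ → ℝ := fun y => if good α p y ∧ good α p (Real.log (β * Real.exp y)) then (1 : ℝ) else 0
    with hG
  have hGm : Measurable G := by
    refine Measurable.ite ?_ measurable_const measurable_const
    refine (measurableSet_good α p).inter ?_
    have h1 : Measurable (fun y : ℝ => Real.log (β * Real.exp y)) :=
      Real.measurable_log.comp (Real.measurable_exp.const_mul _)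
    exact h1 (measurableSet_good α p)
  have hG0 : ∀ y, 0 ≤ G y := fun y => by simp only [hG]; split_ifs <;> norm_num
  have hG1 : ∀ y, G y ≤ 1 := fun y => by simp only [hG]; split_ifs <;> norm_num
  set B : ℝ → ℝ := fun y => if bad α p y then (1 : ℝ) else 0 with hB
  have hBm : Measurable B := Measurable.ite (measurableSet_bad α p) measurable_const measurable_const
  have hB0 : ∀ y, 0 ≤ B y := fun y => by simp only [hB]; split_ifs <;> norm_num
  have hB1 : ∀ y, B y ≤ 1 := fun y => by simp only [hB]; split_ifs <;> norm_num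
  have hlog : ∀ y : ℝ, Real.log (β * Real.exp y) = y + Real.log β := by
    intro y
    rw [Real.log_mul hβ0.ne' (Real.exp_pos y).ne', Real.log_exp, add_comm]
  have hint : ∀ F : ℝ → ℝ, Measurable F → (∀ y, 0 ≤ F y) → (∀ y, F y ≤ 1) →
      ∀ a b : ℝ, IntegrableOn F (Set.Ioc a b) := by
    intro F hF h0 h1 a b
    refine Measure.integrableOn_of_bounded (M := 1) (by simp) hF.aestronglyMeasurable ?_
    refine Eventually.of_forall fun t => ?_
    rw [Real.norm_eq_abs, abs_of_nonneg (h0 _)]
    exact h1 _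
  have hpt : ∀ y : ℝ, ff p y * ff p (y + Real.log β) ≤ B y + B (y + Real.log β) + G y := by
    intro y
    have e1 := hB0 y
    have e2 := hB0 (y + Real.log β)
    have e3 := hG0 y
    unfold ff
    by_cases h1 : (roughPart p (NN y)).Prime
    · by_cases h2 : (roughPart p (NN (y + Real.log β))).Prime
      · rw [if_pos h1, if_pos h2, mul_one]
        by_cases h3 : bad α p y
        · have : B y = 1 := by simp only [hB]; rw [if_pos h3]
          linarith
        · by_cases h4 : bad α p (y + Real.log β)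
          · have : B (y + Real.log β) = 1 := by simp only [hB]; rw [if_pos h4]
            linarith
          · have h5 : good α p y := ⟨h1, by
              by_contra hc
              exact h3 ⟨h1, not_lt.1 hc⟩⟩
            have h6 : good α p (y + Real.log β) := ⟨h2, by
              by_contra hc
              exact h4 ⟨h2, not_lt.1 hc⟩⟩
            rw [← hlog] at h6
            have : G y = 1 := by simp only [hG]; rw [if_pos ⟨h5, h6⟩]
            linarith
      · rw [if_neg h2, mul_zero]; linarith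
    · rw [if_neg h1, zero_mul]; linarith
  have hm1 : Measurable fun t : ℝ => t + L * p := measurable_id.add_const _
  have hm2 : Measurable fun t : ℝ => t + L * p + Real.log β := (measurable_id.add_const _).add_const _
  have i1 := hint (fun t => B (t + L * p)) (hBm.comp hm1) (fun _ => hB0 _) (fun _ => hB1 _) b0 (b0 + 1)
  have i2 := hint (fun t => B (t + L * p + Real.log β)) (hBm.comp hm2) (fun _ => hB0 _)
    (fun _ => hB1 _) b0 (b0 + 1)
  have i3 := hint (fun t => G (t + L * p)) (hGm.comp hm1) (fun _ => hG0 _) (fun _ => hG1 _) b0 (b0 + 1)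
  have i0 := hint (fun t => ff p (t + L * p) * ff p (t + L * p + Real.log β))
    (((measurable_ff p).comp hm1).mul ((measurable_ff p).comp hm2))
    (fun _ => mul_nonneg (ff_nonneg _ _) (ff_nonneg _ _))
    (fun _ => mul_le_one₀ (ff_le_one _ _) (ff_nonneg _ _) (ff_le_one _ _)) b0 (b0 + 1)
  have i12 : IntegrableOn (fun t => B (t + L * p) + B (t + L * p + Real.log β)) (Set.Ioc b0 (b0 + 1)) :=
    i1.add i2
  have hstep : ∫ t in Set.Ioc b0 (b0 + 1), ff p (t + L * p) * ff p (t + L * p + Real.log β) ≤
      (∫ t in Set.Ioc b0 (b0 + 1), B (t + L * p)) +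
      (∫ t in Set.Ioc b0 (b0 + 1), B (t + L * p + Real.log β)) +
        ∫ t in Set.Ioc b0 (b0 + 1), G (t + L * p) := by
    rw [← integral_add i1 i2, ← integral_add i12 i3]
    exact setIntegral_mono_on i0 (i12.add i3) measurableSet_Ioc fun t _ => hpt _
  have h1 : ∫ t in Set.Ioc b0 (b0 + 1), G (t + L * p) ≤ K1 * (Real.log p / p) ^ 2 := by
    rw [trans_window G b0 (L * p)]
    exact hWp (b0 + L * p) (by linarith)
  have h2 : ∫ t in Set.Ioc b0 (b0 + 1), B (t + L * p + Real.log β) =
      ∫ t in Set.Ioc (b0 + Real.log β) (b0 + Real.log β + 1), B (t + L * p) := by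
    rw [← trans_window (fun t => B (t + L * p)) b0 (Real.log β)]
    refine integral_congr_ae (Eventually.of_forall fun t => ?_)
    show B _ = B _
    congr 1
    ring
  rw [h2] at hstep
  have h3 : ∫ t in Set.Ioc b0 (b0 + 1), B (t + L * p) ≤ 32 * Real.exp (-(3 * L / 32 * p)) := hbp
  have h4 : ∫ t in Set.Ioc (b0 + Real.log β) (b0 + Real.log β + 1), B (t + L * p) ≤
      32 * Real.exp (-(3 * L / 32 * p)) := hbq
  linarith

lemma summable_w : Summable fun p : ℕ => (Real.log p / p) ^ 2 := by
  have h : Summable fun p : ℕ => 16 * (p : ℝ) ^ (-(3 / 2) : ℝ) :=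
    (Real.summable_nat_rpow.2 (by norm_num)).mul_left _
  refine Summable.of_nonneg_of_le (fun p => sq_nonneg _) (fun p => ?_) h
  rcases Nat.eq_zero_or_pos p with rfl | hp
  · simp
  have hp0 : (0 : ℝ) < p := by exact_mod_cast hp
  have h1 := Real.log_le_rpow_div hp0.le (by norm_num : (0 : ℝ) < 1 / 4)
  have h2 : Real.log p / p ≤ 4 * (p : ℝ) ^ (-(3 / 4) : ℝ) := by
    rw [div_le_iff₀ hp0]
    have e : (p : ℝ) ^ (-(3 / 4) : ℝ) * p = (p : ℝ) ^ (1 / 4 : ℝ) := by
      conv_lhs => rw [← Real.rpow_one (p : ℝ), ← Real.rpow_mul hp0.le, ← Real.rpow_add hp0]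
      norm_num
    rw [mul_assoc, e]
    linarith
  have h0 : 0 ≤ Real.log p / p := div_nonneg (Real.log_natCast_nonneg p) hp0.le
  calc (Real.log p / p) ^ 2 ≤ (4 * (p : ℝ) ^ (-(3 / 4) : ℝ)) ^ 2 := pow_le_pow_left₀ h0 h2 2
    _ = 16 * (p : ℝ) ^ (-(3 / 2) : ℝ) := by
        rw [mul_pow, ← Real.rpow_natCast ((p : ℝ) ^ (-(3 / 4) : ℝ)) 2, ← Real.rpow_mul hp0.le]
        norm_num

/-- Almost surely only finitely many indices give two primes. -/
theorem pair_finite {α β A : ℝ} (hα : 1 < α) (hβ1 : 1 ≤ β) (hA : 1 ≤ A)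
    (hdio : ∀ a b : ℕ, 1 ≤ a → 1 ≤ b → 1 ≤ |(a : ℝ) - b * β| * (A * (a + b))) :
    ∀ᵐ t : ℝ, ∀ᶠ p : ℕ in atTop,
      ¬ (ff p (t + Real.log α * p) = 1 ∧ ff p (t + Real.log α * p + Real.log β) = 1) := by
  refine Pool.Agent.TH888.R.ae_windows fun b0 => ?_
  obtain ⟨K, hK, hb⟩ := pair_bound hα hβ1 hA hdio b0
  obtain ⟨P, hP⟩ := eventually_atTop.1 hb
  set L := Real.log α with hL
  set μ := volume.restrict (Set.Ioc b0 (b0 + 1)) with hμ
  set E : ℕ → Set ℝ := fun p => {t | ff p (t + L * p) = 1 ∧ ff p (t + L * p + Real.log β) = 1} with hE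
  have hm1 : ∀ p : ℕ, Measurable fun t : ℝ => t + L * p := fun p => measurable_id.add_const _
  have hm2 : ∀ p : ℕ, Measurable fun t : ℝ => t + L * p + Real.log β :=
    fun p => (measurable_id.add_const _).add_const _
  have hEm : ∀ p, MeasurableSet (E p) := by
    intro p
    exact (((measurable_ff p).comp (hm1 p)) (measurableSet_singleton 1)).inter
      (((measurable_ff p).comp (hm2 p)) (measurableSet_singleton 1))
  have h01 : ∀ p y, ff p y = 0 ∨ ff p y = 1 := by
    intro p y
    unfold ff
    split_ifs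
    · exact Or.inr rfl
    · exact Or.inl rfl
  have hmeas : ∀ p ≥ P, μ (E p) ≤ ENNReal.ofReal (K * (Real.log p / p) ^ 2) := by
    intro p hp
    have h1 : ∫ t, (E p).indicator (fun _ => (1 : ℝ)) t ∂μ = μ.real (E p) := by
      rw [integral_indicator_const _ (hEm p), smul_eq_mul, mul_one]
    have h2 : ∫ t, (E p).indicator (fun _ => (1 : ℝ)) t ∂μ =
        ∫ t in Set.Ioc b0 (b0 + 1), ff p (t + L * p) * ff p (t + L * p + Real.log β) := by
      rw [hμ]
      refine integral_congr_ae (Eventually.of_forall fun t => ?_)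
      show (E p).indicator (fun _ => (1 : ℝ)) t = ff p (t + L * p) * ff p (t + L * p + Real.log β)
      by_cases ht : t ∈ E p
      · rw [Set.indicator_of_mem ht, ht.1, ht.2, mul_one]
      · rw [Set.indicator_of_notMem ht]
        rcases h01 p (t + L * p) with h3 | h3
        · show 0 = ff p (t + L * p) * _
          rw [h3, zero_mul]
        · rcases h01 p (t + L * p + Real.log β) with h4 | h4
          · show 0 = _ * ff p (t + L * p + Real.log β)
            rw [h4, mul_zero]
          · exact absurd ⟨h3, h4⟩ ht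
    rw [h1] at h2
    have h3 := hP p hp
    rw [← h2] at h3
    rw [← ofReal_measureReal (measure_ne_top μ _)]
    exact ENNReal.ofReal_le_ofReal h3
  have hsum : ∑' p, μ (if p < P then ∅ else E p) ≠ ⊤ := by
    have h1 : Summable fun p : ℕ => K * (Real.log p / p) ^ 2 := summable_w.mul_left K
    have h2 : ∑' p : ℕ, ENNReal.ofReal (K * (Real.log p / p) ^ 2) ≠ ⊤ := h1.tsum_ofReal_ne_top
    refine ne_top_of_le_ne_top h2 (ENNReal.tsum_le_tsum fun p => ?_)
    by_cases hp : p < P
    · rw [if_pos hp]; simp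
    · rw [if_neg hp]; exact hmeas p (not_lt.1 hp)
  filter_upwards [ae_eventually_notMem hsum] with t ht
  filter_upwards [ht, eventually_ge_atTop P] with p hp1 hp2
  rw [if_neg (by omega)] at hp1
  exact hp1

end Pool.Agent.N567.PL
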