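import Mathlib
import Pool.Agent.TH888.R.Asy

set_option autoImplicit false

/-!
# Small perturbations do not change the integer parts
-/

namespace Pool.Agent.N567.PL

open MeasureTheory Filter Topology
open Pool.Agent.TH888.R (Pt cS VS gr one_le_gr loglog_nonneg VS_nonneg)
open Pool.Agent.H305R2 (roughPart)

/-- near-integer values are rare -/
lemma near_int_measure {a ε : ℝ} (ha : 0 < a) (hε : 0 ≤ ε) (hε1 : ε ≤ 1) (T : ℕ) :
    volume {t : ℝ | t ∈ Set.Ioo 0 (T : ℝ) ∧ ∃ m : ℤ, |a * t - m| ≤ ε} ≤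
      ENNReal.ofReal ((a * T + 3) * (2 * (ε / a))) := by
  have haT : 0 ≤ a * T := by positivity
  have hsub : {t : ℝ | t ∈ Set.Ioo 0 (T : ℝ) ∧ ∃ m : ℤ, |a * t - m| ≤ ε} ⊆
      ⋃ m ∈ Finset.Icc (-1 : ℤ) (⌊a * T⌋ + 1), Metric.closedBall ((m : ℝ) / a) (ε / a) := by
    rintro t ⟨ht, m, hm⟩
    simp only [Set.mem_iUnion, Finset.mem_Icc, exists_prop]
    have h1 := abs_le.1 hm
    have h2 : 0 < a * t := mul_pos ha ht.1
    have h3 : a * t < a * T := mul_lt_mul_of_pos_left ht.2 ha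
    refine ⟨m, ⟨?_, ?_⟩, ?_⟩
    · have : (-1 : ℝ) ≤ m := by linarith [h1.2]
      exact_mod_cast this
    · have h4 : (m : ℝ) - 1 ≤ a * T := by linarith [h1.1]
      have h5 : ((m - 1 : ℤ) : ℝ) ≤ a * T := by push_cast; exact h4
      have := Int.le_floor.2 h5
      omega
    · rw [Metric.mem_closedBall, Real.dist_eq]
      have e : t - m / a = (a * t - m) / a := by field_simp
      rw [e, abs_div, abs_of_pos ha]
      exact div_le_div_of_nonneg_right hm ha.le
  refine (measure_mono hsub).trans ((measure_biUnion_finset_le _ _).trans ?_)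
  simp only [Real.volume_closedBall, Finset.sum_const, Int.card_Icc, nsmul_eq_mul]
  have h1 : ((⌊a * T⌋ + 1 + 1 - -1).toNat : ENNReal) ≤ ENNReal.ofReal (a * T + 3) := by
    rw [← ENNReal.ofReal_natCast]
    refine ENNReal.ofReal_le_ofReal ?_
    have h2 : (0 : ℤ) ≤ ⌊a * T⌋ := Int.floor_nonneg.2 haT
    have h3 : (((⌊a * T⌋ + 1 + 1 - -1).toNat : ℤ) : ℝ) = (⌊a * T⌋ : ℝ) + 3 := by
      rw [Int.toNat_of_nonneg (by omega)]
      push_cast
      ring
    have h4 : (((⌊a * T⌋ + 1 + 1 - -1).toNat : ℕ) : ℝ) = (⌊a * T⌋ : ℝ) + 3 := by exact_mod_cast h3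
    rw [h4]
    linarith [Int.floor_le (a * T)]
  rw [ENNReal.ofReal_mul (by positivity : (0 : ℝ) ≤ a * T + 3)]
  exact mul_le_mul' h1 le_rfl

/-- for almost every `t` every exponentially small perturbation of `c t α ^ n` leaves the integer
part unchanged for all large `n` -/
theorem floor_stable {α α' c : ℝ} (hα : 1 < α) (hα' : |α'| < 1) (hc : 0 < c) :
    ∀ᵐ t : ℝ, 0 < t → ∀ B : ℝ, ∀ᶠ n : ℕ in atTop,
      ⌊c * t * α ^ n + B * α' ^ n⌋₊ = ⌊c * t * α ^ n⌋₊ := by
  set ρ := (1 + |α'|) / 2 with hρ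
  have habs := abs_nonneg α'
  have hρ0 : 0 < ρ := by rw [hρ]; linarith
  have hρ1 : ρ < 1 := by rw [hρ]; linarith
  have hαρ : |α'| < ρ := by rw [hρ]; linarith
  have hsum : ∀ T : ℕ, ∀ᵐ t : ℝ, ∀ᶠ n : ℕ in atTop,
      ¬ (t ∈ Set.Ioo 0 (T : ℝ) ∧ ∃ m : ℤ, |c * α ^ n * t - m| ≤ ρ ^ n) := by
    intro T
    have h1 : Summable fun n : ℕ => ((T + 3 / c) * 2) * ρ ^ n :=
      (summable_geometric_of_lt_one hρ0.le hρ1).mul_left _
    have h2 : ∑' n : ℕ, ENNReal.ofReal (((T + 3 / c) * 2) * ρ ^ n) ≠ ⊤ := h1.tsum_ofReal_ne_top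
    refine ae_eventually_notMem (μ := volume)
      (s := fun n : ℕ => {t : ℝ | t ∈ Set.Ioo 0 (T : ℝ) ∧ ∃ m : ℤ, |c * α ^ n * t - m| ≤ ρ ^ n}) ?_
    refine ne_top_of_le_ne_top h2 (ENNReal.tsum_le_tsum fun n => ?_)
    have hαn : 1 ≤ α ^ n := one_le_pow₀ hα.le
    have ha : 0 < c * α ^ n := by positivity
    refine (near_int_measure ha (pow_nonneg hρ0.le n) (pow_le_one₀ hρ0.le hρ1.le) T).trans ?_
    refine ENNReal.ofReal_le_ofReal ?_
    have e : (c * α ^ n * T + 3) * (2 * (ρ ^ n / (c * α ^ n))) =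
        ((T + 3 / (c * α ^ n)) * 2) * ρ ^ n := by
      field_simp
    rw [e]
    have h3 : 3 / (c * α ^ n) ≤ 3 / c := by
      refine div_le_div_of_nonneg_left (by norm_num) hc ?_
      nlinarith
    have h4 : 0 ≤ ρ ^ n := pow_nonneg hρ0.le n
    exact mul_le_mul_of_nonneg_right (by linarith) h4
  have hall : ∀ᵐ t : ℝ, ∀ T : ℕ, ∀ᶠ n : ℕ in atTop,
      ¬ (t ∈ Set.Ioo 0 (T : ℝ) ∧ ∃ m : ℤ, |c * α ^ n * t - m| ≤ ρ ^ n) := ae_all_iff.2 hsum
  filter_upwards [hall] with t ht h0 B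
  obtain ⟨T, hT⟩ := exists_nat_gt t
  have hB : ∀ᶠ n : ℕ in atTop, |B * α' ^ n| ≤ ρ ^ n := by
    have h1 : Tendsto (fun n : ℕ => |B| * (|α'| / ρ) ^ n) atTop (𝓝 (|B| * 0)) :=
      (tendsto_pow_atTop_nhds_zero_of_lt_one (by positivity) ((div_lt_one hρ0).2 hαρ)).const_mul _
    rw [mul_zero] at h1
    filter_upwards [h1.eventually_le_const one_pos] with n hn
    rw [abs_mul, abs_pow]
    rw [div_pow, mul_div_assoc', div_le_one (pow_pos hρ0 n)] at hn
    exact hn
  filter_upwards [ht T, hB] with n h1 h2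
  have h3 : ∀ m : ℤ, ρ ^ n < |c * α ^ n * t - m| := by
    intro m
    by_contra h4
    exact h1 ⟨⟨h0, hT⟩, m, not_lt.1 h4⟩
  have e : c * t * α ^ n = c * α ^ n * t := by ring
  rw [e]
  set v := c * α ^ n * t with hv
  have h4 := h3 ⌊v⌋
  have h5 := h3 (⌊v⌋ + 1)
  push_cast at h5
  have h6 := Int.floor_le v
  have h7 := Int.lt_floor_add_one v
  rw [abs_of_nonneg (by linarith)] at h4
  rw [abs_of_nonpos (by linarith)] at h5
  have h8 := abs_le.1 h2
  rw [← Int.floor_toNat, ← Int.floor_toNat]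
  congr 1
  rw [Int.floor_eq_iff]
  constructor <;> linarith [h8.1, h8.2]

open Classical in
/-- the law depends only on the tail of the sequence -/
theorem pt_congr {s s' : ℕ → ℕ} {c : ℝ} {S : Set ℕ} (h : Pt s c S)
    (hs : ∀ᶠ p : ℕ in atTop, s' p = s p) : Pt s' c S := by
  obtain ⟨P, hP⟩ := eventually_atTop.1 hs
  refine ⟨fun hd => ?_, fun hd hfin => ?_, fun hd => ?_⟩
  · obtain ⟨B, hB, hBn⟩ := h.law hd
    refine ⟨B + P, by positivity, fun n hn => ?_⟩
    have h2 : |(cS S s' n : ℝ) - cS S s n| ≤ P := by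
      have e : ∀ u : ℕ → ℕ, (cS S u n : ℝ) = ∑ p ∈ Finset.range (n + 1),
          if p.Prime ∧ p ∈ S ∧ (roughPart p (u p)).Prime then (1 : ℝ) else 0 := by
        intro u
        unfold cS
        rw [Finset.card_eq_sum_ones, Finset.sum_filter]
        push_cast
        rfl
      rw [e s', e s, ← Finset.sum_sub_distrib]
      have h3 : ∑ p ∈ Finset.range (n + 1),
          |(if p.Prime ∧ p ∈ S ∧ (roughPart p (s' p)).Prime then (1 : ℝ) else 0) -
          (if p.Prime ∧ p ∈ S ∧ (roughPart p (s p)).Prime then (1 : ℝ) else 0)| ≤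
          ∑ p ∈ Finset.range (n + 1), if p < P then (1 : ℝ) else 0 := by
        refine Finset.sum_le_sum fun p _ => ?_
        by_cases hp : P ≤ p
        · rw [if_neg (by omega : ¬ p < P), hP p hp, sub_self, abs_zero]
        · rw [if_pos (by omega : p < P)]
          rw [abs_le]
          split_ifs <;> constructor <;> norm_num
      have h4 : ∑ p ∈ Finset.range (n + 1), (if p < P then (1 : ℝ) else 0) ≤ P := by
        rw [Finset.sum_ite, Finset.sum_const_zero, add_zero, Finset.sum_const, nsmul_eq_mul, mul_one]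
        have : ((Finset.range (n + 1)).filter (fun q => q < P)).card ≤ P := by
          calc _ ≤ (Finset.range P).card := Finset.card_le_card fun q hq => by
                  rw [Finset.mem_filter] at hq
                  exact Finset.mem_range.2 hq.2
            _ = P := Finset.card_range P
        exact_mod_cast this
      exact (Finset.abs_sum_le_sum_abs _ _).trans (h3.trans h4)
    have h1 := hBn n hn
    have h3 : 1 ≤ gr (VS S n * (1 + Real.log (Real.log n))) := by
      refine one_le_gr ?_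
      have := loglog_nonneg hn
      have := VS_nonneg S n
      positivity
    have h4 := abs_add_le ((cS S s' n : ℝ) - cS S s n) (cS S s n - c * VS S n)
    have e : (cS S s' n : ℝ) - cS S s n + (cS S s n - c * VS S n) = (cS S s' n : ℝ) - c * VS S n := by
      ring
    rw [e] at h4
    have h5 : (P : ℝ) ≤ P * gr (VS S n * (1 + Real.log (Real.log n))) := by
      have : (0 : ℝ) ≤ P := Nat.cast_nonneg P
      nlinarith
    linarith
  · refine h.inf hd ((hfin.union (Set.finite_lt_nat P)).subset fun p hp => ?_)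
    by_cases h1 : P ≤ p
    · refine Or.inl ⟨hp.1, hp.2.1, ?_⟩
      rw [hP p h1]
      exact hp.2.2
    · exact Or.inr (by show p < P; omega)
  · refine ((h.fin hd).union (Set.finite_lt_nat P)).subset fun p hp => ?_
    by_cases h1 : P ≤ p
    · refine Or.inl ⟨hp.1, hp.2.1, ?_⟩
      rw [← hP p h1]
      exact hp.2.2
    · exact Or.inr (by show p < P; omega)

/-- scaling of the variable -/
lemma ae_scale {c : ℝ} (hc : c ≠ 0) {p : ℝ → Prop} (h : ∀ᵐ t : ℝ, p t) : ∀ᵐ t : ℝ, p (c * t) := by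
  have hq : Measure.QuasiMeasurePreserving (fun t : ℝ => c * t) volume volume := by
    refine ⟨measurable_const_mul c, ?_⟩
    rw [Real.map_volume_mul_left hc]
    exact Measure.smul_absolutelyContinuous
  exact hq.ae h

end Pool.Agent.N567.PL
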