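import Mathlib
import Pool.Agent.N567.PL.Pair
import Pool.Agent.N567.PL.Shift
import Pool.Agent.H19P.QA

set_option autoImplicit false

/-!
# The laws for integer parts, uniformly in the conjugate amplitude
-/

namespace Pool.Agent.N567.PL

open MeasureTheory Filter Topology
open Pool.Agent.TH888.R (Pt)
open Pool.Agent.H305R2 (roughPart ff)
open Pool.Agent.H447R2.ML (ff_eq_floor)

/-- the values are almost surely not integers -/
lemma not_int {α c : ℝ} (hα : 0 < α) (hc : 0 < c) :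
    ∀ᵐ t : ℝ, ∀ n m : ℕ, c * (Real.exp t * α ^ n) ≠ m := by
  have hnull : volume (⋃ n : ℕ, ⋃ m : ℕ, {t : ℝ | c * (Real.exp t * α ^ n) = m}) = 0 := by
    refine Set.Countable.measure_zero ?_ volume
    refine Set.countable_iUnion fun p => Set.countable_iUnion fun m => ?_
    refine Set.Subsingleton.countable ?_
    intro s hs t ht
    simp only [Set.mem_ofPred_eq] at hs ht
    have h3 : c * (Real.exp s * α ^ p) = c * (Real.exp t * α ^ p) := by rw [hs, ht]
    exact Real.exp_injective (mul_right_cancel₀ (pow_pos hα p).ne' (mul_left_cancel₀ hc.ne' h3))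
  have hae : ∀ᵐ t : ℝ, t ∉ ⋃ n : ℕ, ⋃ m : ℕ, {t : ℝ | c * (Real.exp t * α ^ n) = m} := by
    rw [ae_iff]
    refine measure_mono_null (fun t ht => ?_) hnull
    simpa only [Set.mem_ofPred_eq, not_not] using ht
  filter_upwards [hae] with t ht n m hm
  refine ht ?_
  simp only [Set.mem_iUnion]
  exact ⟨n, m, hm⟩

/-- two proportional sequences -/
theorem pair_floor {α β A : ℝ} (hα : 1 < α) (hβ1 : 1 ≤ β) (hA : 1 ≤ A)
    (hdio : ∀ a b : ℕ, 1 ≤ a → 1 ≤ b → 1 ≤ |(a : ℝ) - b * β| * (A * (a + b))) :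
    ∀ᵐ x : ℝ, 0 < x → ∀ᶠ n : ℕ in atTop,
      ¬ ((roughPart n ⌊x * α ^ n⌋₊).Prime ∧ (roughPart n ⌊β * (x * α ^ n)⌋₊).Prime) := by
  have hα0 : 0 < α := by linarith
  have hβ0 : 0 < β := by linarith
  refine Pool.Agent.W66X.ae_of_exp' (P := fun x : ℝ => ∀ᶠ n : ℕ in atTop,
      ¬ ((roughPart n ⌊x * α ^ n⌋₊).Prime ∧ (roughPart n ⌊β * (x * α ^ n)⌋₊).Prime)) ?_
  filter_upwards [pair_finite hα hβ1 hA hdio, not_int (c := 1) hα0 one_pos, not_int (c := β) hα0 hβ0]
    with t h1 h2 h3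
  filter_upwards [h1] with n hn
  rintro ⟨h4, h5⟩
  refine hn ⟨?_, ?_⟩
  · have e : t + Real.log α * n = Real.log (Real.exp t * α ^ n) := by
      rw [Real.log_mul (Real.exp_pos t).ne' (pow_pos hα0 n).ne', Real.log_exp, Real.log_pow]
      ring
    rw [e, ff_eq_floor (by positivity) (fun m => by have := h2 n m; rwa [one_mul] at this), if_pos h4]
  · have e : t + Real.log α * n + Real.log β = Real.log (β * (Real.exp t * α ^ n)) := by
      rw [Real.log_mul hβ0.ne' (mul_pos (Real.exp_pos t) (pow_pos hα0 n)).ne',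
        Real.log_mul (Real.exp_pos t).ne' (pow_pos hα0 n).ne', Real.log_exp, Real.log_pow]
      ring
    rw [e, ff_eq_floor (by positivity) (fun m => h3 n m), if_pos h5]

/-- the law for one sequence, uniformly in the conjugate amplitude -/
theorem pt_all {α α' c : ℝ} {P : ℤ} (hα : 1 < α) (hs : α + α' = P) (hm : α * α' = -1) (hc : 0 < c)
    (S : Set ℕ) : ∀ᵐ t : ℝ, 0 < t → ∀ B : ℝ, Pt (fun n => ⌊c * t * α ^ n + B * α' ^ n⌋₊)
      (Real.exp Real.eulerMascheroniConstant / Real.log α) S := by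
  have h1 := ae_scale hc.ne' (Pool.Agent.H19P.pt_unit hα hs hm 0 S)
  filter_upwards [h1, floor_stable hα (Pool.Agent.H19P.conj_abs hα hm) hc] with t h2 h3 h0 B
  refine pt_congr (h2 (mul_pos hc h0)) ?_
  filter_upwards [h3 h0 B] with n hn
  rw [hn, zero_mul, add_zero]

/-- the joint law for two sequences, uniformly in the conjugate amplitudes -/
theorem pair_all {α α' c β A : ℝ} (hα : 1 < α) (hα' : |α'| < 1) (hc : 0 < c) (hβ1 : 1 ≤ β)
    (hA : 1 ≤ A)
    (hdio : ∀ a b : ℕ, 1 ≤ a → 1 ≤ b → 1 ≤ |(a : ℝ) - b * β| * (A * (a + b))) :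
    ∀ᵐ t : ℝ, 0 < t → ∀ B B' : ℝ, ∀ᶠ n : ℕ in atTop,
      ¬ ((roughPart n ⌊c * t * α ^ n + B * α' ^ n⌋₊).Prime ∧
        (roughPart n ⌊β * c * t * α ^ n + B' * α' ^ n⌋₊).Prime) := by
  have hβ0 : 0 < β := by linarith
  have h1 := ae_scale hc.ne' (pair_floor hα hβ1 hA hdio)
  filter_upwards [h1, floor_stable hα hα' hc, floor_stable hα hα' (mul_pos hβ0 hc)]
    with t h2 h3 h4 h0 B B'
  filter_upwards [h2 (mul_pos hc h0), h3 h0 B, h4 h0 B'] with n h5 h6 h7
  rw [h6, h7]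
  have e : β * c * t * α ^ n = β * (c * t * α ^ n) := by ring
  rw [e]
  exact h5

end Pool.Agent.N567.PL
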